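import Pool.Agent.K3h88.VR.Stm

/-!
# Brick RANK of project VR: the number of linear maps of small rank on a subspace
-/

set_option autoImplicit false
set_option maxHeartbeats 400000

namespace Pool.Agent.K3h59.VR

open Pool.Agent.K3h88.VR Finset

/-- every subspace is contained in a subspace of a given larger dimension -/
theorem exists_ge {m : ℕ} (ρ : ℕ) (h2 : ρ ≤ m) : ∀ (k : ℕ) (U : Submodule (ZMod 2) (E m)),
    Module.finrank (ZMod 2) U + k = ρ → ∃ W : Submodule (ZMod 2) (E m), U ≤ W ∧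
      Module.finrank (ZMod 2) W = ρ := by
  intro k
  induction k with
  | zero => exact fun U h => ⟨U, le_rfl, by rw [← h, add_zero]⟩
  | succ k ih =>
    intro U h
    have htop : U ≠ ⊤ := by
      rintro rfl
      rw [finrank_top] at h
      have h3 : Module.finrank (ZMod 2) (E m) = m := by
        rw [Module.finrank_fin_fun]
      omega
    obtain ⟨v, -, hv⟩ := SetLike.exists_of_lt (lt_top_iff_ne_top.2 htop)
    have hv0 : v ≠ 0 := by
      rintro rfl
      exact hv U.zero_mem
    have hd : Disjoint U (Submodule.span (ZMod 2) {v}) :=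
      (Submodule.disjoint_span_singleton' hv0).2 hv
    have h4 := Submodule.finrank_sup_add_finrank_inf_eq U (Submodule.span (ZMod 2) {v})
    rw [hd.eq_bot, finrank_bot, finrank_span_singleton hv0, add_zero] at h4
    obtain ⟨W, hW, hW2⟩ := ih (U ⊔ Submodule.span (ZMod 2) {v}) (by rw [h4]; omega)
    exact ⟨W, le_sup_left.trans hW, hW2⟩

/-- The number of linear maps with small rank on a subspace. -/
theorem t_RANK (h1 : S_SUB) (h2 : S_HOM) : S_RANK := by
  classical
  intro n m d ρ V hρm hρd hdn hV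
  have hfin : Finite (E n →ₗ[ZMod 2] E m) := DFunLike.finite _
  have hfs : Finite (Submodule (ZMod 2) (E m)) :=
    Finite.of_injective (fun W : Submodule (ZMod 2) (E m) => (W : Set (E m)))
      SetLike.coe_injective
  have hft : Fintype {W : Submodule (ZMod 2) (E m) // Module.finrank (ZMod 2) W = ρ} :=
    Fintype.ofFinite _
  have hex : ∀ φ : {φ : E n →ₗ[ZMod 2] E m // Module.finrank (ZMod 2) (V.map φ) ≤ ρ},
      ∃ W : Submodule (ZMod 2) (E m), V.map φ.1 ≤ W ∧ Module.finrank (ZMod 2) W = ρ := fun φ =>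
    exists_ge ρ hρm (ρ - Module.finrank (ZMod 2) (V.map φ.1)) _ (Nat.add_sub_cancel' φ.2)
  choose W hW hWρ using hex
  let g : {φ : E n →ₗ[ZMod 2] E m // Module.finrank (ZMod 2) (V.map φ) ≤ ρ} →
      Σ W : {W : Submodule (ZMod 2) (E m) // Module.finrank (ZMod 2) W = ρ},
        {φ : E n →ₗ[ZMod 2] E m // V.map φ ≤ W.1} := fun φ => ⟨⟨W φ, hWρ φ⟩, ⟨φ.1, hW φ⟩⟩
  have hg : Function.Injective g := by
    intro φ ψ h
    have h3 : (g φ).2.1 = (g ψ).2.1 := by rw [h]
    exact Subtype.ext h3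
  have h3 := Nat.card_le_card_of_injective g hg
  rw [Nat.card_sigma] at h3
  have h4 : ∀ U : {W : Submodule (ZMod 2) (E m) // Module.finrank (ZMod 2) W = ρ},
      Nat.card {φ : E n →ₗ[ZMod 2] E m // V.map φ ≤ U.1} = 2 ^ (ρ * d + m * (n - d)) := by
    intro U
    rw [h2 n m d V U.1 hV, U.2]
  rw [Finset.sum_congr rfl fun U _ => h4 U, Finset.sum_const, smul_eq_mul, Finset.card_univ,
    ← Nat.card_eq_fintype_card] at h3
  have h5 := Nat.mul_le_mul_right (2 ^ (ρ * d + m * (n - d))) (h1 m ρ)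
  have h6 := Nat.mul_le_mul_right (2 ^ ((d - ρ) * (m - ρ))) (h3.trans h5)
  refine h6.trans (le_of_eq ?_)
  rw [← pow_add, ← pow_add]
  congr 1
  obtain ⟨a, rfl⟩ := Nat.exists_eq_add_of_le hρm
  obtain ⟨b, rfl⟩ := Nat.exists_eq_add_of_le hρd
  obtain ⟨c, rfl⟩ := Nat.exists_eq_add_of_le hdn
  rw [Nat.add_sub_cancel_left, Nat.add_sub_cancel_left, Nat.add_sub_cancel_left]
  ring

end Pool.Agent.K3h59.VR
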